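import Pool.Agent.R827.DS4

/-!
# Squares of `Δ`-sets of reals (MP_d5ec8b_lc)

It is consistent with ZFC that there is a `Δ`-set (even a `Q`-set) `X ⊆ ℝ` whose square is not a
`Δ`-set.

Part one: for every uncountable set `I` there is a notion of forcing `P` with the countable chain
condition, such that all conditions force the combinatorial principle `Principle (I ⊕ I)`.

Part two: the principle implies that there is such a set `X`.
-/

set_option autoImplicit false

namespace Pool.Agent.Results.MP_d5ec8b_lc.SquareOfDeltaSet

open Set Pool.Agent.R827.DS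

/-- Every uncountable family of conditions contains two compatible ones. -/
def CountableChainCondition (P : Type) [Preorder P] : Prop :=
  ∀ J : Type, ¬ (univ : Set J).Countable → ∀ p : J → P, ∃ i j, i ≠ j ∧ ∃ q, q ≤ p i ∧ q ≤ p j

/-- **Main theorem.** The principle can be forced by a notion of forcing with the countable chain
condition, and it implies that there is a `Q`-set which is a `Δ`-set whose square is not a
`Δ`-set. -/
theorem result :
    (∀ I : Type, ¬ (univ : Set I).Countable → ∃ (P : Type) (_ : Preorder P), Nonempty P ∧
      CountableChainCondition P ∧ ∀ p : P, p ∈ PrincipleHolds P (I ⊕ I)) ∧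
    (∀ K : Type, Principle K →
      ∃ X : Set ℝ, QSpace X ∧ DeltaSpace X ∧ ¬ DeltaSpace ↥(X ×ˢ X)) :=
  ⟨fun _ hI => ⟨Q _, inferInstance, inferInstance, fun _ hJ p => ccc hJ p, forced hI⟩,
    fun _ h => exists_set h⟩

end Pool.Agent.Results.MP_d5ec8b_lc.SquareOfDeltaSet
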